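import Mathlib
import Pool.Agent.Lib.helper31.PExt

namespace Pool.Agent.Results.MP_d7144b_an.DoublingUnbounded

open Set Filter Topology Pool.Agent.Lib.helper31.PExt

/-- Every closed ball of radius `2r > 0` is covered by `n` closed balls of radius `r`. -/
def DoublingLE (N : Type) [MetricSpace N] (n : ℕ) : Prop :=
  ∀ (x : N) (r : ℝ), 0 < r → ∃ c : Fin n → N,
    Metric.closedBall x (2 * r) ⊆ ⋃ i, Metric.closedBall (c i) r

/-- `q(N, p) = ae_p(N) / ae_1(N)`. -/
noncomputable def q (N : Type) [MetricSpace N] (p : ℝ) : ENNReal := ae p N / ae 1 N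

theorem doubling {n : ℕ} (hn : 2 ≤ n) : DoublingLE N3 n := by
  intro x r hr
  let a : N3 := ⟨(0, 0), by simp [N3]⟩
  let b : N3 := ⟨(1, 0), by simp [N3]⟩
  let c : N3 := ⟨(0, 3), by simp [N3]⟩
  have key : ∀ u v : N3, (∀ y, dist y x ≤ 2 * r → dist y u ≤ r ∨ dist y v ≤ r) →
      ∃ c : Fin n → N3, Metric.closedBall x (2 * r) ⊆ ⋃ i, Metric.closedBall (c i) r := by
    intro u v h
    refine ⟨fun i => if i.1 = 0 then u else v, fun y hy => mem_iUnion.2 ?_⟩
    rcases h y hy with h | h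
    · exact ⟨⟨0, by omega⟩, h⟩
    · exact ⟨⟨1, by omega⟩, h⟩
  by_cases h1 : 1 ≤ r
  · refine key a c ?_
    rintro ⟨y, rfl | rfl | rfl⟩ _
    · left; simp [a, hr.le]
    · left; simpa [a, Subtype.dist_eq, Prod.dist_eq] using h1
    · right; simp [c, hr.le]
  · by_cases h2 : x = c
    · refine key c c ?_
      rintro ⟨y, rfl | rfl | rfl⟩ hy
      · simp [h2, c, Subtype.dist_eq, Prod.dist_eq] at hy; linarith
      · simp [h2, c, Subtype.dist_eq, Prod.dist_eq] at hy; linarith
      · left; simp [c, hr.le]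
    · refine key a b ?_
      rintro ⟨y, rfl | rfl | rfl⟩ hy
      · left; simp [a, hr.le]
      · right; simp [b, hr.le]
      · exfalso
        obtain ⟨x, rfl | rfl | rfl⟩ := x
        · simp [Subtype.dist_eq, Prod.dist_eq] at hy; linarith
        · simp [Subtype.dist_eq, Prod.dist_eq] at hy; linarith
        · exact h2 rfl

theorem ae_one : ae 1 N3 ≤ 6 := by
  simp only [ae, iSup_le_iff]
  intro M _ j hj
  refine sInf_le fun Z _ _ ν hν f hf => ?_
  let a : N3 := ⟨(0, 0), by simp [N3]⟩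
  let b : N3 := ⟨(1, 0), by simp [N3]⟩
  let c : N3 := ⟨(0, 3), by simp [N3]⟩
  let φ : N3 → M → ℝ := fun u x => max 0 (1 - dist x (j u))
  have hφ : ∀ u x y, |φ u x - φ u y| ≤ dist x y := by
    intro u x y
    refine (abs_max_sub_max_le_max _ _ _ _).trans ?_
    rw [sub_self, abs_zero, max_le_iff]
    refine ⟨dist_nonneg, ?_⟩
    rw [sub_sub_sub_cancel_left, abs_sub_comm]
    exact abs_dist_sub_le _ _ _
  refine ⟨fun x => f c + φ a x • (f a - f c) + φ b x • (f b - f c), ?_, ?_⟩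
  · rintro ⟨x, rfl | rfl | rfl⟩
    · simp [φ, a, b, hj.dist_eq, Subtype.dist_eq, Prod.dist_eq]
    · simp [φ, a, b, hj.dist_eq, Subtype.dist_eq, Prod.dist_eq]
    · norm_num [φ, a, b, c, hj.dist_eq, Subtype.dist_eq, Prod.dist_eq]
  · have e : Lip ν f = ENNReal.ofReal (Lip ν f).toReal := (ENNReal.ofReal_toReal hf.ne).symm
    have h1 := (Lip_le_iff ENNReal.toReal_nonneg).1 e.le
    have e2 : (6 : ENNReal) * Lip ν f = ENNReal.ofReal (6 * (Lip ν f).toReal) := by
      rw [ENNReal.ofReal_mul (by positivity), ← e]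
      simp
    rw [e2, Lip_le_iff (by positivity)]
    intro x y _
    have e3 : f c + φ a x • (f a - f c) + φ b x • (f b - f c) -
        (f c + φ a y • (f a - f c) + φ b y • (f b - f c)) =
        (φ a x - φ a y) • (f a - f c) + (φ b x - φ b y) • (f b - f c) := by module
    have h2 := hν.add ((φ a x - φ a y) • (f a - f c)) ((φ b x - φ b y) • (f b - f c))
    simp only [Real.rpow_one, hν.smul] at h2
    have h3 := h1 a c (by simp [a, c])
    have h4 := h1 b c (by simp [b, c])
    have d1 : dist a c = 3 := by simp [a, c, Subtype.dist_eq, Prod.dist_eq]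
    have d2 : dist b c = 3 := by norm_num [b, c, Subtype.dist_eq, Prod.dist_eq]
    rw [d1] at h3
    rw [d2] at h4
    have h5 := mul_le_mul (hφ a x y) h3 (hν.nonneg _) dist_nonneg
    have h6 := mul_le_mul (hφ b x y) h4 (hν.nonneg _) dist_nonneg
    rw [e3]
    linarith

/-- For every `n ≥ 2` some nonempty space with doubling constant at most `n` has finite `ae_1` and
`q(N, p) → ∞` as `p → 0`; hence the supremum in Q1 is infinite. -/
theorem result (n : ℕ) (hn : 2 ≤ n) :
    (∃ (N : Type) (_ : MetricSpace N), Nonempty N ∧ DoublingLE N n ∧ ae 1 N < ⊤ ∧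
      Tendsto (q N) (𝓝[>] 0) (𝓝 ⊤)) ∧
    ⨆ (N : Type) (_ : MetricSpace N) (_ : Nonempty N) (_ : DoublingLE N n), lim0 (q N) = ⊤ := by
  have h1 : ae 1 N3 < ⊤ := ae_one.trans_lt (by simp)
  have h2 : Tendsto (q N3) (𝓝[>] 0) (𝓝 ⊤) := by
    have := ENNReal.Tendsto.div_const (b := ae 1 N3) ae_tendsto (Or.inl (by simp))
    rwa [ENNReal.top_div_of_lt_top h1] at this
  refine ⟨⟨N3, inferInstance, inferInstance, doubling hn, h1, h2⟩, top_le_iff.1 ?_⟩
  refine le_iSup₂_of_le N3 inferInstance (le_iSup₂_of_le inferInstance (doubling hn) ?_)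
  exact (h2.limUnder_eq).ge

end Pool.Agent.Results.MP_d7144b_an.DoublingUnbounded
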